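import Pool.Agent.CC603.Assembly
import Pool.Agent.CC603.Density
import Pool.Agent.CC603.Posets

/-!
Almost every natural number is the number of nonempty chains of a finite poset of width exactly
two.
-/

namespace Pool.Agent.Results.MP_603bb3_co.DensityOne

/-- `n` is the number of nonempty chains of a finite poset of width exactly two -/
def IsChainCount (n : ℕ) : Prop :=
  ∃ (α : Type) (_ : Finite α) (_ : PartialOrder α),
    (∃ a b : α, ¬ a ≤ b ∧ ¬ b ≤ a) ∧
    (∀ a b c : α, ¬ (¬ a ≤ b ∧ ¬ b ≤ a ∧ ¬ a ≤ c ∧ ¬ c ≤ a ∧ ¬ b ≤ c ∧ ¬ c ≤ b)) ∧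
    Nat.card {s : Set α // s.Nonempty ∧ IsChain (· ≤ ·) s} = n

open Classical in
/-- the proportion of the `n < x` that are not chain counts of posets of width exactly two tends
to zero -/
theorem result : Filter.Tendsto
    (fun x : ℕ => (((Finset.range x).filter (fun n => ¬ IsChainCount n)).card : ℝ) / x)
    Filter.atTop (nhds 0) :=
  Pool.Agent.CC603.density_shift Pool.Agent.CC603.TV IsChainCount
    (fun _ h => h.two_mul) Pool.Agent.CC603.assembly (fun _ ⟨_, h⟩ hx => h.isChainCount hx)

end Pool.Agent.Results.MP_603bb3_co.DensityOne
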